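import Pool.Agent.H58.PF.Targets

/-!
DEN: the dense sets.
-/

set_option autoImplicit false

open Topology Cardinal

namespace Pool.Agent.H60.PF

open Pool.Agent.H58.PF Pool.Agent.H20.SL Pool.Agent.H64.AK Pool.Agent.H64.AG Pool.Agent.H60.CP

theorem den (hCLO : H58.PF.T_CLO) (hMDL : H58.PF.T_MDL) (hTOP : H58.PF.T_TOP) :
    H58.PF.T_DEN := by
  classical
  intro W U ι _ E r 𝓗 B hP hM
  refine ⟨?_, ?_⟩
  · intro α p
    obtain ⟨b, hb⟩ := hP.unb α
    obtain ⟨F, hF⟩ := hMDL W U E r 𝓗 hP hM
    have hS : ({E.cw b} ∪ ⋃ t ∈ p.1.nodes, {t.1, E.cw t.2} : Set U).Countable := by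
      refine (Set.countable_singleton _).union ?_
      refine Set.Countable.biUnion (Finset.countable_toSet p.1.nodes) fun t _ => ?_
      exact (Set.toFinite _).countable
    obtain ⟨N, hSN, hNc, hNF⟩ := hCLO U F _ hS
    obtain ⟨q, hqp, t, ht, hN⟩ := hTOP W U ι E r 𝓗 B hP hM p N hNc (hF N hNF) (by
      intro t ht
      refine ⟨hSN (Or.inr ?_), hSN (Or.inr ?_)⟩
      · exact Set.mem_biUnion (show t ∈ p.1.nodes from ht) (Or.inl rfl)
      · exact Set.mem_biUnion (show t ∈ p.1.nodes from ht) (Or.inr rfl))
    refine ⟨q, ⟨t, ht, hb.trans ((q.2.mdl t ht).2.1 b ?_)⟩, hqp⟩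
    rw [hN]
    exact hSN (Or.inl rfl)
  · intro α i p
    by_cases h : ∃ q ≤ p, ∃ t ∈ q.1.nodes, r t.2 = α
    · obtain ⟨q, hqp, t, ht, hrt⟩ := h
      by_cases htB : t.2 ∈ B i
      · have hex : ∃ o : Option W, (∀ b, o = some b → (∃ s ∈ q.1.nodes, s.2 = b) ∧ r b < r t.2) ∧
            ∀ s ∈ q.1.nodes, Abv r o s.2 → ¬ r s.2 < r t.2 := by
          rcases (q.1.nodes.filter fun s => r s.2 < r t.2).eq_empty_or_nonempty with hA | hA
          · refine ⟨none, ?_, ?_⟩
            · intro b hb
              exact absurd hb (by simp)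
            · intro s hs _ hlt
              have : s ∈ q.1.nodes.filter fun s => r s.2 < r t.2 :=
                Finset.mem_filter.2 ⟨hs, hlt⟩
              rw [hA] at this
              exact Finset.notMem_empty _ this
          · obtain ⟨s, hs, hmax⟩ := Finset.exists_max_image _ (fun s : U × W => r s.2) hA
            obtain ⟨hs1, hs2⟩ := Finset.mem_filter.1 hs
            refine ⟨some s.2, ?_, ?_⟩
            · intro b hb
              have hE : s.2 = b := Option.some_injective _ hb
              rw [← hE]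
              exact ⟨⟨s, hs1, rfl⟩, hs2⟩
            · intro s' hs' habv hlt
              have h1 := hmax s' (Finset.mem_filter.2 ⟨hs', hlt⟩)
              exact absurd (habv s.2 rfl) (not_lt.2 h1)
        obtain ⟨o, ho1, ho2⟩ := hex
        have hgood : Good E r 𝓗 B ⟨q.1.nodes, insert (o, t.2, i) q.1.prom⟩ := by
          constructor
          · exact q.2.mdl
          · exact q.2.chain
          · intro u hu
            rcases Finset.mem_insert.1 hu with hu | hu
            · rw [hu]
              exact ⟨⟨t, ht, rfl⟩, htB⟩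
            · exact q.2.pnt u hu
          · intro u hu b hb
            rcases Finset.mem_insert.1 hu with hu | hu
            · rw [hu] at hb ⊢
              exact ho1 b hb
            · exact q.2.bot u hu b hb
          · intro u hu s hs habv hlt
            rcases Finset.mem_insert.1 hu with hu | hu
            · rw [hu] at habv hlt
              exact absurd hlt (ho2 s hs habv)
            · exact q.2.keep u hu s hs habv hlt
        refine ⟨⟨_, hgood⟩, Or.inl ⟨t, ht, hrt, fun _ => ⟨o, Finset.mem_insert_self _ _⟩⟩, ?_⟩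
        refine le_trans ?_ hqp
        exact ⟨Finset.Subset.refl _, Finset.subset_insert _ _⟩
      · exact ⟨q, Or.inl ⟨t, ht, hrt, fun h => absurd h htB⟩, hqp⟩
    · refine ⟨p, Or.inr ?_, le_refl p⟩
      intro q hq t ht hE
      exact h ⟨q, hq, t, ht, hE⟩

end Pool.Agent.H60.PF
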