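import Pool.Agent.H58.PF.Targets

/-!
GEN: the proper forcing axiom gives a copy of `ω₁`.
-/

set_option autoImplicit false

open Topology Cardinal

namespace Pool.Agent.H60.PF

open Pool.Agent.H58.PF Pool.Agent.H20.SL Pool.Agent.H64.AK Pool.Agent.H64.AG Pool.Agent.H60.CP

theorem gen (hPRP : H58.PF.T_PRP) (hDEN : H58.PF.T_DEN) : H58.PF.T_GEN := by
  intro W U ι _ E r 𝓗 B hP hM hPFA hι hB
  obtain ⟨hD1, hD2⟩ := hDEN W U ι E r 𝓗 B hP hM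
  have hne : Nonempty (PP E r 𝓗 B) := by
    refine ⟨⟨⟨∅, ∅⟩, ?_⟩⟩
    constructor
    · intro t ht
      exact absurd ht (Finset.notMem_empty _)
    · intro s hs
      exact absurd hs (Finset.notMem_empty _)
    · intro u hu
      exact absurd hu (Finset.notMem_empty _)
    · intro u hu
      exact absurd hu (Finset.notMem_empty _)
    · intro u hu
      exact absurd hu (Finset.notMem_empty _)
  have hcard : #(Om ⊕ (Om × ι)) ≤ ℵ₁ := by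
    rw [Cardinal.mk_sum, Cardinal.mk_prod]
    simp only [Cardinal.lift_id, mk_Om]
    have h1 : ℵ₁ * #ι ≤ ℵ₁ := by
      calc ℵ₁ * #ι ≤ ℵ₁ * ℵ₁ := mul_le_mul_right hι ℵ₁
        _ = ℵ₁ := Cardinal.mul_eq_self (Cardinal.aleph0_le_aleph 1)
    calc ℵ₁ + ℵ₁ * #ι ≤ ℵ₁ + ℵ₁ := add_le_add_right h1 ℵ₁
      _ = ℵ₁ := Cardinal.add_eq_self (Cardinal.aleph0_le_aleph 1)
  obtain ⟨G, -, -, hG, hGD⟩ := hPFA (PP E r 𝓗 B) (hPRP W U ι E r 𝓗 B hB.1 hP hM)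
    (Om ⊕ (Om × ι)) (fun j => match j with
      | Sum.inl α => {p : PP E r 𝓗 B | ∃ t ∈ p.1.nodes, α < r t.2}
      | Sum.inr (α, i) => {p : PP E r 𝓗 B |
        (∃ t ∈ p.1.nodes, r t.2 = α ∧ (t.2 ∈ B i → ∃ o, (o, t.2, i) ∈ p.1.prom)) ∨
        ∀ q ≤ p, ∀ t ∈ q.1.nodes, r t.2 ≠ α}) hcard (by
      rintro (α | ⟨α, i⟩)
      · exact hD1 α
      · exact hD2 α i)
  have hinj : ∀ p ∈ G, ∀ s ∈ p.1.nodes, ∀ q ∈ G, ∀ t ∈ q.1.nodes, r s.2 = r t.2 → s.2 = t.2 := by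
    intro p hp s hs q hq t ht hst
    obtain ⟨c, -, hcp, hcq⟩ := hG p hp q hq
    rw [c.2.eq_of_rank (hcp.1 hs) (hcq.1 ht) hst]
  refine ⟨{x | ∃ p ∈ G, ∃ t ∈ p.1.nodes, t.2 = x}, ?_, ?_, ?_⟩
  · rintro x ⟨p, hp, s, hs, rfl⟩ y ⟨q, hq, t, ht, rfl⟩ h
    exact hinj p hp s hs q hq t ht h
  · intro α
    obtain ⟨p, ⟨t, ht, hα⟩, hp⟩ := hGD (Sum.inl α)
    exact ⟨t.2, ⟨p, hp, t, ht, rfl⟩, hα⟩
  · rintro x ⟨p₀, hp₀, t₀, ht₀, rfl⟩ V hV hx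
    obtain ⟨i, hxi, hiV⟩ := hB.2 t₀.2 V hV hx
    obtain ⟨p, hpD, hp⟩ := hGD (Sum.inr (r t₀.2, i))
    rcases hpD with ⟨t, ht, hrt, hprom⟩ | hno
    · have hE : t.2 = t₀.2 := hinj p hp t ht p₀ hp₀ t₀ ht₀ hrt
      rw [hE] at hprom
      obtain ⟨o, ho⟩ := hprom hxi
      refine ⟨o, ?_, ?_⟩
      · intro b hb
        obtain ⟨⟨s, hs, hsb⟩, hlt⟩ := p.2.bot _ ho b hb
        exact ⟨⟨p, hp, s, hs, hsb⟩, hlt⟩
      · rintro y ⟨p₁, hp₁, t₁, ht₁, rfl⟩ habv hlt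
        obtain ⟨c, -, hcp, hcp₁⟩ := hG p hp p₁ hp₁
        exact hiV (c.2.keep _ (hcp.2 ho) t₁ (hcp₁.1 ht₁) habv hlt)
    · obtain ⟨c, -, hcp, hcp₀⟩ := hG p hp p₀ hp₀
      exact absurd rfl (hno c hcp t₀ (hcp₀.1 ht₀))

end Pool.Agent.H60.PF
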